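import Pool.Agent.R597.RD.NF
import Mathlib

/-!
# l-adic regulators with their formal properties
-/

set_option autoImplicit false

open CategoryTheory CategoryTheory.Limits AlgebraicGeometry MvPolynomial
open Pool.Agent.R904.CU Pool.Agent.R597.RD
open scoped TensorProduct

namespace Pool.Agent.R597.LA

section Ext

variable (F : Type) [Field F]

/-- the `F`-linear extension `F ⊗ A → N` of a homomorphism `r : A → N` -/
noncomputable def ext {A N : Type} [AddCommGroup A] [AddCommGroup N] [Module F N] (r : A →+ N) :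
    F ⊗[ℤ] A →ₗ[F] N :=
  LinearMap.liftBaseChange F r.toIntLinearMap

/-- the `F`-linear extension of `r` is injective and its image is the subspace `S` -/
def IsoOnto {A N : Type} [AddCommGroup A] [AddCommGroup N] [Module F N] (r : A →+ N)
    (S : Submodule F N) : Prop :=
  Function.Injective (ext F r) ∧ LinearMap.range (ext F r) = S

end Ext

/-- a functor from `𝓡` to the vector spaces over `F` -/
structure ModFun (F : Type) [Field F] (𝓡 : Type 1) [Category.{0} 𝓡] where
  /-- the values -/
  obj : 𝓡 → Type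
  /-- group structure -/
  grp : ∀ V, AddCommGroup (obj V)
  /-- vector space structure -/
  mod : ∀ V, Module F (obj V)
  /-- the map of a morphism -/
  map : ∀ {V W : 𝓡} (_ : V ⟶ W), obj V →ₗ[F] obj W
  map_id : ∀ V, map (𝟙 V) = LinearMap.id
  map_comp : ∀ {U V W : 𝓡} (f : U ⟶ V) (g : V ⟶ W), map (f ≫ g) = map g ∘ₗ map f

attribute [instance] ModFun.grp ModFun.mod

/-- the subspaces `st V` of the values of `N` are preserved by the maps of morphisms -/
def Preserves {F : Type} [Field F] {𝓡 : Type 1} [Category.{0} 𝓡] (N : ModFun F 𝓡)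
    (st : ∀ V, Submodule F (N.obj V)) : Prop :=
  ∀ {V W : 𝓡} (f : V ⟶ W), st V ≤ (st W).comap (N.map f)

/-- An abelian category (of Galois representations over `F`) with two functors to vector spaces: `Inv`
(the invariants) and `N` (the first Galois cohomology group), and subspaces `st` of the values of `N`
(the semistable classes). -/
structure GalRep (F : Type) [Field F] where
  /-- the category of Galois representations -/
  𝓡 : Type 1
  /-- its morphisms -/
  cat : Category.{0} 𝓡
  /-- it is abelian -/
  ab : Abelian 𝓡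
  /-- the invariants -/
  Inv : ModFun F 𝓡
  /-- the first Galois cohomology group -/
  N : ModFun F 𝓡
  /-- the subspace of semistable classes -/
  st : ∀ V : 𝓡, Submodule F (N.obj V)
  st_map : Preserves N st

attribute [instance] GalRep.cat GalRep.ab

/-- For a group `M` and representations `V`, `W`: a homomorphism `cl : M → Inv V` (the cycle map), its
kernel `M₀`, and a homomorphism `reg : M₀ → N W` (the regulator).
Here `M = H^i_M(X, ℚ(j))`, `V = H^i(X̄, ℚ_l(j))`, `W = H^{i-1}(X̄, ℚ_l(j))`. -/
structure RegAt {F : Type} [Field F] (P : GalRep F) (M : Type) [AddCommGroup M] (V W : P.𝓡) where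
  /-- the homologically trivial part -/
  M₀ : Type
  /-- its group structure -/
  grp₀ : AddCommGroup M₀
  /-- the cycle map -/
  cl : M →+ P.Inv.obj V
  /-- the inclusion -/
  incl : M₀ →+ M
  /-- the regulator -/
  reg : M₀ →+ P.N.obj W
  inj : Function.Injective incl
  exact : Function.Exact incl cl

attribute [instance] RegAt.grp₀

section

variable {F : Type} [Field F] {P : GalRep F} {M M' : Type} [AddCommGroup M] [AddCommGroup M']
  {V W V' W' : P.𝓡} (A : RegAt P M V W) (B : RegAt P M' V' W')

/-- Q1 for `A`: the `F`-linear extension of the regulator is injective and its image is the space of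
semistable classes -/
def RegAt.Q : Prop := IsoOnto F A.reg (P.st W)

/-- The homomorphism `α` and the morphism `a` are compatible with the cycle maps. -/
def CompatCl (α : M →+ M') (a : V ⟶ V') : Prop := ∀ x, B.cl (α x) = P.Inv.map a (A.cl x)

/-- `α` maps `x` to `y`. -/
def Maps (α : M →+ M') (x : A.M₀) (y : B.M₀) : Prop := α (A.incl x) = B.incl y

/-- The homomorphism `α` and the morphism `b` are compatible with the regulators. -/
def CompatReg (α : M →+ M') (b : W ⟶ W') : Prop :=
  ∀ x y, Maps A B α x y → B.reg y = P.N.map b (A.reg x)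

end

/-- the sequence `A → B → C` is exact -/
def ExactAt {𝓡 : Type 1} [Category.{0} 𝓡] [Abelian 𝓡] {A B C : 𝓡} (f : A ⟶ B) (g : B ⟶ C) : Prop :=
  ∃ w : f ≫ g = 0, (ShortComplex.mk f g w).Exact

/-- Motivic cohomology, étale cohomology with values in Galois representations, cycle maps and
regulators. -/
structure Ladic (K : Type) [CommRing K] (F : Type) [Field F] where
  /-- the Galois representations -/
  P : GalRep F
  /-- motivic cohomology `M.G X i j = H^i_M(X, ℚ(j))` -/
  M : Coh K
  /-- étale cohomology `E X i j = H^i(X ⊗ K̄, ℚ_l(j))` -/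
  E : Sch K → ℤ → ℤ → P.𝓡
  /-- the pull-back in étale cohomology -/
  pull : ∀ {X Y : Sch K} (_ : Y ⟶ X) (i j : ℤ), E X i j ⟶ E Y i j
  /-- cycle maps and regulators -/
  reg : ∀ X i j, RegAt P (M.G X i j) (E X i j) (E X (i - 1) j)

section

variable {K : Type} [CommRing K] {F : Type} [Field F] (L : Ladic K F)

/-- Q1 for `X` in the bidegree `(i, j)`: the `F`-linear extension of the regulator is injective and its
image is the space of semistable classes -/
def Ladic.Q (X : Sch K) (i j : ℤ) : Prop := (L.reg X i j).Q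

/-- étale pull-backs are functorial -/
structure IsFunct : Prop where
  idE : ∀ (X : Sch K) (i j : ℤ), L.pull (𝟙 X) i j = 𝟙 _
  compE : ∀ {X Y Z : Sch K} (f : Y ⟶ X) (g : Z ⟶ Y) (i j : ℤ),
    L.pull (g ≫ f) i j = L.pull f i j ≫ L.pull g i j

/-- the cycle map and the regulator are natural -/
structure IsNat : Prop where
  funct : L.M.IsFunctorial
  natCl : ∀ {X Y : Sch K} (f : Y ⟶ X) (i j : ℤ),
    CompatCl (L.reg X i j) (L.reg Y i j) (L.M.pull f i j) (L.pull f i j)
  natReg : ∀ {X Y : Sch K} (f : Y ⟶ X) (i j : ℤ),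
    CompatReg (L.reg X i j) (L.reg Y i j) (L.M.pull f i j) (L.pull f (i - 1) j)

/-- homotopy invariance for affine bundles over smooth schemes -/
def HasBundles : Prop :=
  ∀ (n d : ℕ) {X E : Sch K} (π : E ⟶ X), IsSm d X → IsAffineBundle n π.left → ∀ i j : ℤ,
    Function.Bijective (L.M.pull π i j) ∧ IsIso (L.pull π i j)

/-- a long exact sequence `A → B → C → D` of groups -/
def LongM {A B C D : Type} [AddCommGroup A] [AddCommGroup B] [AddCommGroup C] [AddCommGroup D]
    (f : A →+ B) (g : B →+ C) (h : C →+ D) : Prop := Function.Exact f g ∧ Function.Exact g h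

/-- There are maps `push`, such that the residues `res` fit in the Gysin sequences
`H^p(X, q) → H^p(U, q) → H^i(Z, j) → H^{p+1}(X, q)` in motivic cohomology. -/
def GysinM {X Z U : Sch K} (u : U ⟶ X) (c : ℕ)
    (res : ∀ i j p q : ℤ, p = i + 2 * c - 1 → q = j + c → (L.M.G U p q →+ L.M.G Z i j)) : Prop :=
  ∀ (i j p q : ℤ) (hp : p = i + 2 * c - 1) (hq : q = j + c),
    ∃ push : L.M.G Z i j →+ L.M.G X (p + 1) q, LongM (L.M.pull u p q) (res i j p q hp hq) push

/-- There are maps `push`, such that the residues `res` fit in the Gysin sequences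
`H^p(X, q) → H^p(U, q) → H^i(Z, j) → H^{p+1}(X, q)` in étale cohomology. -/
def GysinE {X Z U : Sch K} (u : U ⟶ X) (c : ℕ)
    (res : ∀ i j p q : ℤ, p = i + 2 * c - 1 → q = j + c → (L.E U p q ⟶ L.E Z i j)) : Prop :=
  ∀ (i j p q : ℤ) (hp : p = i + 2 * c - 1) (hq : q = j + c),
    ∃ push : L.E Z i j ⟶ L.E X (p + 1) q,
      ExactAt (L.pull u p q) (res i j p q hp hq) ∧ ExactAt (res i j p q hp hq) push

/-- There are Gysin sequences in motivic and in étale cohomology, with compatible residues. -/
def IsGysin {X Z U : Sch K} (u : U ⟶ X) (c : ℕ) : Prop :=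
  ∃ (resM : ∀ i j p q : ℤ, p = i + 2 * c - 1 → q = j + c → (L.M.G U p q →+ L.M.G Z i j))
    (resE : ∀ i j p q : ℤ, p = i + 2 * c - 1 → q = j + c → (L.E U p q ⟶ L.E Z i j)),
    GysinM L u c resM ∧ GysinE L u c resE ∧
      (∀ (i j p q : ℤ) (hp : p = i + 2 * c - 1) (hq : q = j + c),
        CompatCl (L.reg U p q) (L.reg Z i j) (resM i j p q hp hq) (resE i j p q hp hq)) ∧
      ∀ (i j p q : ℤ) (hp : p = i + 2 * c - 1) (hp' : p - 1 = i - 1 + 2 * c - 1) (hq : q = j + c),
        CompatReg (L.reg U p q) (L.reg Z i j) (resM i j p q hp hq) (resE (i - 1) j (p - 1) q hp' hq)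

/-- The properties of motivic and `l`-adic cohomology which are used. -/
structure IsLadic : Prop extends IsFunct L, IsNat L where
  bundle : HasBundles L
  gysin : ∀ (c d : ℕ) {X Z U : Sch K} (z : Z ⟶ X) (u : U ⟶ X), IsSm (d + c) X → IsSm d Z →
    IsPair z u → IsGysin L (Z := Z) u c
  pointM : ∀ i j : ℤ, 2 ≤ i → Subsingleton (L.M.G (Over.mk (𝟙 (Spec (.of K)))) i j)
  pointE : ∀ i j : ℤ, i ≠ 0 → IsZero (L.E (Over.mk (𝟙 (Spec (.of K)))) i j)

end

end Pool.Agent.R597.LA
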