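import Pool.Agent.R597.LA.Trans

/-!
# Q1 for a class of smooth varieties and for smooth affine cubic hypersurfaces
-/

set_option autoImplicit false

open CategoryTheory CategoryTheory.Limits AlgebraicGeometry MvPolynomial
open Pool.Agent.R904.CU Pool.Agent.R597.RD
open scoped TensorProduct

namespace Pool.Agent.R597.LA

theorem isAffineBundle_space {K : Type} [CommRing K] (σ : Type) [Fintype σ] :
    IsAffineBundle (Fintype.card σ)
      (Spec.map (CommRingCat.ofHom (algebraMap K (MvPolynomial σ K)))) :=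
  isAffineBundle_C K σ

theorem isAffineBundle_iso {n : ℕ} {E E' X : Scheme.{0}} (e : E' ⟶ E) [IsIso e] (π : E ⟶ X)
    (h : IsAffineBundle n π) : IsAffineBundle n (e ≫ π) := by
  intro x
  obtain ⟨B, u, τ, i1, v, hn, hu, hx, hp⟩ := h x
  refine ⟨B, u, τ, i1, v ≫ inv e, hn, hu, hx, ?_⟩
  refine IsPullback.of_iso hp (Iso.refl _) (asIso e).symm (Iso.refl _) (Iso.refl _) ?_ ?_ ?_ ?_
  · simp
  · simp
  · simp
  · simp

section

variable {K : Type} [Field K] {F : Type} [Field F] {L : Ladic K F} (hL : IsLadic L)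

/-- the structure map of the affine space as a morphism -/
noncomputable def toPoint (K : Type) [CommRing K] (B : Type) [CommRing B] [Algebra K B] :
    SpecO K B ⟶ Over.mk (𝟙 (Spec (.of K))) :=
  Over.homMk (Spec.map (CommRingCat.ofHom (algebraMap K B))) (Category.comp_id _)

theorem sm_point : IsSm 0 (Over.mk (𝟙 (Spec (.of K)))) := by
  change Sm K 0 (Spec (.of K)) (𝟙 _)
  exact ⟨⟨inferInstance, inferInstance, inferInstance⟩, inferInstance⟩

include hL

theorem spaceM (σ : Type) [Fintype σ] (i j : ℤ) (h : 2 ≤ i) :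
    Subsingleton (L.M.G (SpecO K (MvPolynomial σ K)) i j) := by
  have h1 := (hL.bundle (Fintype.card σ) 0 (toPoint K (MvPolynomial σ K)) sm_point
    (isAffineBundle_space σ) i j).1.surjective
  have h2 := hL.pointM i j h
  exact h1.subsingleton

theorem spaceE (σ : Type) [Fintype σ] (i j : ℤ) (h : i ≠ 0) :
    IsZero (L.E (SpecO K (MvPolynomial σ K)) i j) := by
  have h1 := (hL.bundle (Fintype.card σ) 0 (toPoint K (MvPolynomial σ K)) sm_point
    (isAffineBundle_space σ) i j).2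
  exact (hL.pointE i j h).of_iso (asIso (L.pull (toPoint K (MvPolynomial σ K)) i j)).symm

/-- **Q1 for `V(g)` and for the cubic hypersurface.** -/
theorem q_cubic {σ κ : Type} [Fintype σ] [Fintype κ] (g : κ → MvPolynomial σ K) {c d : ℕ}
    (hcard : Fintype.card σ = d + c) (hZ : IsSm d (vScheme g)) {i j p q : ℤ}
    (hp : p = i + 2 * c - 1) (hq : q = j + c) (h2 : 2 ≤ p) :
    L.Q (Over.mk (hyp (bigPoly g))) p q ↔ L.Q (vScheme g) i j := by
  let X : Sch K := SpecO K (MvPolynomial σ K)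
  have hX : IsSm (d + c) X := by
    have h := sm_poly K (sm_self (K := K)) σ
    rwa [add_zero, hcard] at h
  let z : vScheme g ⟶ X := specO (Ideal.Quotient.mkₐ K (Ideal.span (Set.range g)))
  have hz1 : IsClosedImmersion (closedZ g) := inferInstance
  have hz2 : Set.range (closedZ g) = (Set.range (openU g).ι)ᶜ := range_closedZ g
  let U : Sch K := Over.mk ((openU g).ι ≫ X.hom)
  let u : U ⟶ X := Over.homMk (openU g).ι rfl
  have hu1 : IsOpenImmersion (openU g).ι := inferInstance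
  have hU : IsSm (d + c) U := sm_open _ hX _
  let W : Sch K := SpecO K (Ring1 g)
  let π : W ⟶ U := Over.homMk (proj g) (by
    change proj g ≫ (openU g).ι ≫ X.hom = _
    rw [← Category.assoc, proj_ι]
    change Spec.map _ ≫ Spec.map _ = Spec.map _
    rw [← Spec.map_comp, ← CommRingCat.ofHom_comp])
  let iso : W ≅ Over.mk (hyp (bigPoly g)) := Over.isoMk (hypIso g) (hypIso_hom g)
  rw [q_iso hL iso, ← q_bundle hL π hU (isAffineBundle_proj g)]
  exact q_residue hL z u hX hZ ⟨hz1, hu1, hz2⟩ (spaceM hL σ) (spaceE hL σ) hp hq h2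

omit hL

variable (L) in
/-- Q1 for the class `C` on the diagonal `2j - i = m` -/
def Ladic.Q1For (C : Sch K → Prop) (m : ℤ) : Prop :=
  ∀ X : Sch K, C X → ∀ i j : ℤ, 2 * j - i = m → L.Q X i j

variable (L) in
/-- Q1 for the smooth affine cubic hypersurfaces `∑ yₖ gₖ(x) = 1`, where the `gₖ` are polynomials of
degree at most two in `d + c` variables such that `V(g)` is smooth of pure codimension `c ≥ 1` and an
affine bundle over a member of the class `C`, in the bidegrees `(p, q)` with `p ≥ 2`, `q ∈ D` and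
`2q - p = m` -/
def Ladic.CubicQ (C : Sch K → Prop) (D : Set ℤ) (m : ℤ) : Prop :=
  ∀ (σ κ : Type) [Fintype σ] [Fintype κ] (g : κ → MvPolynomial σ K) (c d : ℕ), 1 ≤ c →
    Fintype.card σ = d + c → (∀ k, (g k).totalDegree ≤ 2) → IsSm d (vScheme g) →
    (∃ X : Sch K, C X ∧ ∃ (n : ℕ) (π : vScheme g ⟶ X), IsAffineBundle n π.left) →
    ∀ p q : ℤ, 2 ≤ p → q ∈ D → 2 * q - p = m → L.Q (Over.mk (hyp (bigPoly g))) p q

include hL

theorem q1_iff_cubic (hJ : Jouanolou K) {C : Sch K → Prop} (hC : ∀ X, C X → ∃ d, IsSm d X)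
    {D : Set ℤ} (hD : ∀ B : ℤ, ∃ q ∈ D, B ≤ q) (m : ℤ) :
    L.Q1For C m ↔ L.CubicQ C D (m + 1) := by
  constructor
  · intro h σ κ _ _ g c d _ hcard _ hZ hX p q h2 _ hpq
    obtain ⟨X, hX, n, π, hπ⟩ := hX
    obtain ⟨e, he⟩ := hC X hX
    have h3 := h X hX (p - 2 * c + 1) (q - c) (by omega)
    rw [q_bundle hL π he hπ] at h3
    exact (q_cubic hL g hcard hZ (by omega) (by omega) h2).2 h3
  · intro h X' hCX i j hm
    obtain ⟨d, hX⟩ := hC X' hCX
    obtain ⟨X, ⟨⟨⟩⟩, f⟩ := X'
    change X ⟶ Spec (.of K) at f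
    obtain ⟨n, E, π, hE, hπ⟩ := hJ d X f hX
    have hs1 := smooth_bundle π hπ
    have hs2 := hX.2
    have hs2' : SmoothOfRelativeDimension d f := hs2
    have hs : SmoothOfRelativeDimension (n + d) (π ≫ f) := inferInstance
    have hsm : Smooth (π ≫ f) := SmoothOfRelativeDimension.smooth (n + d) _
    have hEs : IsSm (n + d) (Over.mk (π ≫ f)) :=
      ⟨⟨(inferInstance : LocallyOfFiniteType (π ≫ f)), (inferInstance : QuasiCompact (π ≫ f)),
        (inferInstance : IsSeparated (π ≫ f))⟩, hs⟩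
    let π' : Over.mk (π ≫ f) ⟶ Over.mk f := Over.homMk π rfl
    obtain ⟨φ, hφ⟩ := Spec.map_surjective (E.isoSpec.inv ≫ π ≫ f)
    have hft2 : LocallyOfFiniteType (Spec.map φ) := by
      rw [hφ]
      infer_instance
    have hφ2 : φ.hom.FiniteType := HasRingHomProperty.Spec_iff.mp hft2
    algebraize [φ.hom]
    let iso1 : Over.mk (π ≫ f) ≅ SpecO K Γ(E, ⊤) := Over.isoMk E.isoSpec (by
      have h3 : Spec.map (CommRingCat.ofHom (algebraMap K Γ(E, ⊤))) = E.isoSpec.inv ≫ π ≫ f := hφ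
      change E.isoSpec.hom ≫ Spec.map (CommRingCat.ofHom (algebraMap K Γ(E, ⊤))) = _
      rw [h3, Iso.hom_inv_id_assoc]
      rfl)
    obtain ⟨σ, κ, _, _, g, hg, ⟨e⟩⟩ := exists_quadratic K Γ(E, ⊤)
    obtain ⟨q, hq, hBq⟩ := hD (|i| + |j| + Fintype.card σ + 2)
    have ha1 := neg_abs_le i
    have ha2 := le_abs_self j
    have ha3 := abs_nonneg i
    obtain ⟨c, hc⟩ := Int.eq_ofNat_of_zero_le (show 0 ≤ q - j by omega)
    obtain ⟨r, hr⟩ : ∃ r : ℕ, Fintype.card σ + r = n + d + c :=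
      ⟨n + d + c - Fintype.card σ, by omega⟩
    let iso2 : vScheme (addV g (Fin r)) ≅ Over.mk (π ≫ f) :=
      ((isoO (addIso g (Fin r))).symm.trans (isoO e).symm).trans iso1.symm
    let ρ : vScheme (addV g (Fin r)) ⟶ Over.mk f := iso2.hom ≫ π'
    have hi : IsIso iso2.hom.left := inferInstanceAs (IsIso ((Over.forget _).map iso2.hom))
    have hρ : IsAffineBundle n ρ.left := isAffineBundle_iso iso2.hom.left π hπ
    have hZ : IsSm (n + d) (vScheme (addV g (Fin r))) := sm_iso iso2.symm hEs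
    have hcard : Fintype.card (σ ⊕ Fin r) = n + d + c := by
      rw [Fintype.card_sum, Fintype.card_fin, hr]
    have h1 := h (σ ⊕ Fin r) (κ ⊕ Fin r) (addV g (Fin r)) c (n + d) (by omega) hcard
      (totalDegree_addV g _ hg) hZ ⟨_, hCX, n, ρ, hρ⟩ (i + 2 * c - 1) q (by omega) hq (by omega)
    have h2 := (q_cubic hL (addV g (Fin r)) hcard hZ (i := i) (j := j) rfl (by omega)
      (by omega)).1 h1
    exact (q_bundle hL ρ hX hρ i j).2 h2

end

end Pool.Agent.R597.LA
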