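import Pool.Agent.R597.LA.Defs

/-!
# Transport of Q1 along compatible isomorphisms
-/

set_option autoImplicit false

open CategoryTheory CategoryTheory.Limits AlgebraicGeometry MvPolynomial
open Pool.Agent.R904.CU Pool.Agent.R597.RD
open scoped TensorProduct

namespace Pool.Agent.R597.LA

section Ext

variable {F : Type} [Field F]

theorem ext_tmul {A N : Type} [AddCommGroup A] [AddCommGroup N] [Module F N] (r : A →+ N) (c : F)
    (x : A) : ext F r (c ⊗ₜ[ℤ] x) = c • r x := by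
  unfold ext
  rw [LinearMap.liftBaseChange_tmul]
  rfl

theorem isoOnto_congr {A A' N N' : Type} [AddCommGroup A] [AddCommGroup A'] [AddCommGroup N]
    [AddCommGroup N'] [Module F N] [Module F N'] {r : A →+ N} {r' : A' →+ N'} (α : A ≃+ A')
    (β : N ≃ₗ[F] N') (h : ∀ x, r' (α x) = β (r x)) {S : Submodule F N} {S' : Submodule F N'}
    (hS : S.map β.toLinearMap = S') : IsoOnto F r S ↔ IsoOnto F r' S' := by
  have h1 : (ext F r') ∘ₗ (LinearMap.baseChange F α.toIntLinearEquiv.toLinearMap) =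
      β.toLinearMap ∘ₗ ext F r := by
    apply TensorProduct.AlgebraTensorModule.ext
    intro c x
    change ext F r' ((LinearMap.baseChange F α.toIntLinearEquiv.toLinearMap) (c ⊗ₜ[ℤ] x)) =
      β (ext F r (c ⊗ₜ[ℤ] x))
    rw [LinearMap.baseChange_tmul, ext_tmul, ext_tmul, map_smul]
    congr 1
    exact h x
  have hb : Function.Bijective (LinearMap.baseChange F α.toIntLinearEquiv.toLinearMap) :=
    (LinearEquiv.baseChange ℤ F A A' α.toIntLinearEquiv).bijective
  have h2 : ∀ y, ext F r' (LinearMap.baseChange F α.toIntLinearEquiv.toLinearMap y) =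
      β (ext F r y) := fun y => DFunLike.congr_fun h1 y
  unfold IsoOnto
  refine and_congr ⟨fun hi => ?_, fun hi => ?_⟩ ⟨fun hr => ?_, fun hr => ?_⟩
  · intro y z hyz
    obtain ⟨y, rfl⟩ := hb.2 y
    obtain ⟨z, rfl⟩ := hb.2 z
    rw [h2, h2] at hyz
    rw [hi (β.injective hyz)]
  · intro y z hyz
    apply hb.1
    apply hi
    rw [h2, h2, hyz]
  · rw [← hS, ← hr]
    ext n
    constructor
    · rintro ⟨y, rfl⟩
      obtain ⟨y, rfl⟩ := hb.2 y
      rw [h2]
      exact ⟨_, ⟨y, rfl⟩, rfl⟩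
    · rintro ⟨_, ⟨y, rfl⟩, rfl⟩
      exact ⟨_, h2 y⟩
  · have h3 : S = S'.comap β.toLinearMap := by
      rw [← hS]
      exact (Submodule.comap_map_eq_of_injective β.injective S).symm
    rw [h3, ← hr]
    ext n
    constructor
    · rintro ⟨y, rfl⟩
      exact ⟨_, h2 y⟩
    · rintro ⟨y, hy⟩
      obtain ⟨y, rfl⟩ := hb.2 y
      rw [h2] at hy
      exact ⟨y, β.injective hy⟩

end Ext

section

variable {K : Type} [CommRing K] {F : Type} [Field F] {L : Ladic K F}

theorem q_congr {X Y : Sch K} {i j p q : ℤ} (α : L.M.G X i j →+ L.M.G Y p q)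
    (a : L.E X i j ⟶ L.E Y p q) (b : L.E X (i - 1) j ⟶ L.E Y (p - 1) q)
    (hc : CompatCl (L.reg X i j) (L.reg Y p q) α a) (hr : CompatReg (L.reg X i j) (L.reg Y p q) α b)
    (hα : Function.Bijective α) (ha : IsIso a) (hb : IsIso b) : L.Q X i j ↔ L.Q Y p q := by
  have hst : ∀ {V W : L.P.𝓡} (f : V ⟶ W) (x), x ∈ L.P.st V → L.P.N.map f x ∈ L.P.st W :=
    fun f x hx => L.P.st_map f hx
  have hker : ∀ x, (L.reg X i j).cl x = 0 ↔ (L.reg Y p q).cl (α x) = 0 := by
    intro x
    rw [hc]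
    constructor
    · intro h
      rw [h, map_zero]
    · intro h
      have h1 : (L.P.Inv.map (inv a)) (L.P.Inv.map a ((L.reg X i j).cl x)) = (L.reg X i j).cl x := by
        rw [← LinearMap.comp_apply, ← L.P.Inv.map_comp, IsIso.hom_inv_id, L.P.Inv.map_id]
        rfl
      rw [← h1, h, map_zero]
  have hex : ∀ x : (L.reg X i j).M₀, ∃ y, (L.reg Y p q).incl y = α ((L.reg X i j).incl x) := by
    intro x
    exact ((L.reg Y p q).exact _).1 ((hker _).1 (((L.reg X i j).exact _).2 ⟨x, rfl⟩))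
  choose f hf using hex
  have hinj := (L.reg Y p q).inj
  let f' : (L.reg X i j).M₀ →+ (L.reg Y p q).M₀ :=
    { toFun := f
      map_zero' := hinj (by rw [hf, map_zero, map_zero, map_zero])
      map_add' := fun x y => hinj (by rw [hf, map_add, map_add, map_add, hf, hf]) }
  have hf' : Function.Bijective f' := by
    constructor
    · intro x y h
      apply (L.reg X i j).inj
      apply hα.1
      rw [← hf, ← hf]
      exact congrArg _ h
    · intro y
      obtain ⟨x, hx⟩ := hα.2 ((L.reg Y p q).incl y)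
      have h1 : (L.reg X i j).cl x = 0 := (hker x).2 (by
        rw [hx]
        exact ((L.reg Y p q).exact _).2 ⟨y, rfl⟩)
      obtain ⟨x, rfl⟩ := ((L.reg X i j).exact _).1 h1
      refine ⟨x, hinj ?_⟩
      rw [← hx]
      exact hf x
  let β : L.P.N.obj (L.E X (i - 1) j) ≃ₗ[F] L.P.N.obj (L.E Y (p - 1) q) :=
    LinearEquiv.ofLinearMap (L.P.N.map b) (L.P.N.map (inv b))
      (by rw [← L.P.N.map_comp, IsIso.inv_hom_id, L.P.N.map_id])
      (by rw [← L.P.N.map_comp, IsIso.hom_inv_id, L.P.N.map_id])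
  have hβ : ∀ x, β x = L.P.N.map b x := fun x => rfl
  refine isoOnto_congr (AddEquiv.ofBijective f' hf') β (fun x => ?_) ?_
  · rw [hβ]
    exact hr x _ (hf x).symm
  · apply le_antisymm
    · rintro _ ⟨x, hx, rfl⟩
      exact hst b x hx
    · intro y hy
      have h1 := hst (inv b) y hy
      refine ⟨L.P.N.map (inv b) y, h1, ?_⟩
      change L.P.N.map b (L.P.N.map (inv b) y) = y
      rw [← LinearMap.comp_apply, ← L.P.N.map_comp, IsIso.inv_hom_id, L.P.N.map_id]
      rfl

variable (hL : IsLadic L)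

include hL

theorem q_bundle {n d : ℕ} {X E : Sch K} (π : E ⟶ X) (hX : IsSm d X)
    (hπ : IsAffineBundle n π.left) (i j : ℤ) : L.Q X i j ↔ L.Q E i j :=
  q_congr _ _ _ (hL.natCl π i j) (hL.natReg π i j) (hL.bundle n d π hX hπ i j).1
    (hL.bundle n d π hX hπ i j).2 (hL.bundle n d π hX hπ (i - 1) j).2

theorem q_iso {X Y : Sch K} (e : X ≅ Y) (i j : ℤ) : L.Q Y i j ↔ L.Q X i j := by
  have hE : ∀ i, IsIso (L.pull e.hom i j) := by
    intro i
    refine ⟨⟨L.pull e.inv i j, ?_, ?_⟩⟩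
    · rw [← hL.compE, e.inv_hom_id, hL.idE]
    · rw [← hL.compE, e.hom_inv_id, hL.idE]
  refine q_congr _ _ _ (hL.natCl e.hom i j) (hL.natReg e.hom i j) ⟨?_, ?_⟩ (hE i) (hE (i - 1))
  · intro x y h
    have h1 : ∀ x, L.M.pull e.inv i j (L.M.pull e.hom i j x) = x := by
      intro x
      change ((L.M.pull e.inv i j).comp (L.M.pull e.hom i j)) x = x
      rw [← hL.funct.comp, e.inv_hom_id, hL.funct.id]
      rfl
    rw [← h1 x, h, h1]
  · intro y
    refine ⟨L.M.pull e.inv i j y, ?_⟩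
    change ((L.M.pull e.hom i j).comp (L.M.pull e.inv i j)) y = y
    rw [← hL.funct.comp, e.hom_inv_id, hL.funct.id]
    rfl

/-- **The residue is an isomorphism for closed subschemes of affine spaces.** -/
theorem q_residue {c d : ℕ} {X Z U : Sch K} (z : Z ⟶ X) (u : U ⟶ X) (hX : IsSm (d + c) X)
    (hZ : IsSm d Z) (hz : IsPair z u) (hM : ∀ i j : ℤ, 2 ≤ i → Subsingleton (L.M.G X i j))
    (hE : ∀ i j : ℤ, i ≠ 0 → IsZero (L.E X i j)) {i j p q : ℤ} (hp : p = i + 2 * c - 1)
    (hq : q = j + c) (h2 : 2 ≤ p) : L.Q U p q ↔ L.Q Z i j := by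
  obtain ⟨resM, resE, h3, h4, h5, h6⟩ := hL.gysin c d z u hX hZ hz
  have hiso : ∀ (i p : ℤ) (hp : p = i + 2 * c - 1), 1 ≤ p → IsIso (resE i j p q hp hq) := by
    intro i p hp h1
    obtain ⟨push, ⟨w1, e1⟩, ⟨w2, e2⟩⟩ := h4 i j p q hp hq
    have z1 : IsZero (L.E X p q) := hE p q (by omega)
    have z2 : IsZero (L.E X (p + 1) q) := hE (p + 1) q (by omega)
    have m1 : Mono (resE i j p q hp hq) :=
      (ShortComplex.exact_iff_mono _ (z1.eq_of_src _ _)).1 e1
    have m2 : Epi (resE i j p q hp hq) :=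
      (ShortComplex.exact_iff_epi _ (z2.eq_of_tgt _ _)).1 e2
    exact isIso_of_mono_of_epi _
  refine q_congr _ _ _ (h5 i j p q hp hq) (h6 i j p q hp (by omega) hq) ?_ (hiso i p hp (by omega))
    (hiso (i - 1) (p - 1) (by omega) (by omega))
  obtain ⟨push, e1, e2⟩ := h3 i j p q hp hq
  have z1 := hM p q h2
  have z2 := hM (p + 1) q (by omega)
  constructor
  · rw [injective_iff_map_eq_zero]
    intro x hx
    obtain ⟨y, rfl⟩ := (e1 x).1 hx
    rw [Subsingleton.elim y 0, map_zero]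
  · intro y
    exact (e2 y).1 (Subsingleton.elim _ _)

end

end Pool.Agent.R597.LA
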